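import Pool.Agent.PFC.StmtsB2

/-! Squad PFC, row FML (helper13): finite complete families of irreducible representations. -/

noncomputable section

namespace Pool.Agent.PFC.H13

open Pool.Agent.PFC Pool.Agent.PFC.B1 Pool.Agent.PFC.B2
open scoped TensorProduct

section

variable {R A k : Type} [CommRing R] [Ring A] [Algebra R A] [Field k] [Algebra R k]

theorem iso_symm {M N : Type} [AddCommGroup M] [Module k M] [AddCommGroup N] [Module k N]
    {ρ : Rp R A k M} {σ : Rp R A k N} (h : Iso ρ σ) : Iso σ ρ := by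
  obtain ⟨f, hf⟩ := h
  refine ⟨f.symm, fun a y => ?_⟩
  obtain ⟨x, rfl⟩ := f.surjective y
  have h1 : f (ρ.ρ a x) = σ.ρ a (f x) := hf a x
  show f.symm (σ.ρ a (f x)) = ρ.ρ a (f.symm (f x))
  rw [← h1, LinearEquiv.symm_apply_apply, LinearEquiv.symm_apply_apply]

theorem iso_trans {M N P : Type} [AddCommGroup M] [Module k M] [AddCommGroup N] [Module k N]
    [AddCommGroup P] [Module k P] {ρ : Rp R A k M} {σ : Rp R A k N} {τ : Rp R A k P}
    (h : Iso ρ σ) (h' : Iso σ τ) : Iso ρ τ := by
  obtain ⟨f, hf⟩ := h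
  obtain ⟨g, hg⟩ := h'
  refine ⟨f.trans g, fun a x => ?_⟩
  have h1 : f (ρ.ρ a x) = σ.ρ a (f x) := hf a x
  have h2 : g (σ.ρ a (f x)) = τ.ρ a (g (f x)) := hg a (f x)
  show g (f (ρ.ρ a x)) = τ.ρ a (g (f x))
  rw [h1, h2]

/-- removing repetitions -/
theorem dedup (L : List (Σ n : ℕ, Rp R A k (Fin n → k))) :
    ∃ L' : List (Σ n : ℕ, Rp R A k (Fin n → k)), (∀ s ∈ L', s ∈ L) ∧
      (∀ s ∈ L, ∃ s' ∈ L', Iso s.2 s'.2) ∧
      L'.Pairwise (fun s t => ¬ Iso s.2 t.2 ∧ ¬ Iso t.2 s.2) := by
  induction L with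
  | nil => exact ⟨[], fun s h => h, fun s h => absurd h List.not_mem_nil, List.Pairwise.nil⟩
  | cons s L ih =>
    obtain ⟨L', h1, h2, h3⟩ := ih
    by_cases h : ∃ s' ∈ L', Iso s.2 s'.2
    · refine ⟨L', fun t ht => List.mem_cons_of_mem _ (h1 t ht), ?_, h3⟩
      intro t ht
      rcases List.mem_cons.mp ht with rfl | ht
      · exact h
      · exact h2 t ht
    · refine ⟨s :: L', ?_, ?_, ?_⟩
      · intro t ht
        rcases List.mem_cons.mp ht with rfl | ht
        · exact List.mem_cons_self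
        · exact List.mem_cons_of_mem _ (h1 t ht)
      · intro t ht
        rcases List.mem_cons.mp ht with rfl | ht
        · exact ⟨t, List.mem_cons_self, ⟨LinearEquiv.refl _ _, fun _ _ => rfl⟩⟩
        · obtain ⟨s', hs', h4⟩ := h2 t ht
          exact ⟨s', List.mem_cons_of_mem _ hs', h4⟩
      · refine List.Pairwise.cons ?_ h3
        intro t ht
        exact ⟨fun h4 => h ⟨t, ht, h4⟩, fun h4 => h ⟨t, ht, iso_symm h4⟩⟩

/-- the list of the irreducible representations with a nonzero intertwiner from `X` -/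
theorem lst (hsim : SimStmt) (hsch : SchStmt) (hinv : InvStmt) (hfin : FinStmt) :
    ∀ (n : ℕ) (X : Type) [AddCommGroup X] [Module k X] [Module.Finite k X] (ξ : Rp R A k X),
      Module.finrank k X = n → ∃ L : List (Σ n : ℕ, Rp R A k (Fin n → k)),
        (∀ s ∈ L, Irr s.2) ∧ ∀ (M : Type) [AddCommGroup M] [Module k M] (ρ : Rp R A k M)
          (f : X →ₗ[k] M), Irr ρ → IsHom ξ ρ f → f ≠ 0 → ∃ s ∈ L, Iso ρ s.2 := by
  intro n
  induction n using Nat.strong_induction_on with
  | _ n ih =>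
    intro X _ _ _ ξ hX
    by_cases hne : Nontrivial X
    · obtain ⟨W, hW, hirr⟩ := hsim R A k X ξ hne
      obtain ⟨m, σ, hσ⟩ := hfin R A k W (subRp ξ W hW)
      have hσi : Irr σ :=
        (hinv R A k W (Fin m → k) W Empty (subRp ξ W hW) σ (subRp ξ W hW) hσ).2.2.2.2.1 hirr
      have hlt : Module.finrank k (X ⧸ W) < n := by
        have h1 := Submodule.finrank_quotient_add_finrank W
        have h2 : 0 < Module.finrank k W := by
          haveI := hirr.1
          exact Module.finrank_pos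
        omega
      obtain ⟨L, hL1, hL2⟩ := ih _ hlt (X ⧸ W) (quRp ξ W hW) rfl
      refine ⟨⟨m, σ⟩ :: L, ?_, ?_⟩
      · intro s hs
        rcases List.mem_cons.mp hs with rfl | hs
        · exact hσi
        · exact hL1 s hs
      · intro M _ _ ρ f hρ hf hf0
        by_cases h : f ∘ₗ W.subtype = 0
        · have hle : W ≤ LinearMap.ker f := by
            intro w hw
            rw [LinearMap.mem_ker]
            exact LinearMap.congr_fun h ⟨w, hw⟩
          have hg : IsHom (quRp ξ W hW) ρ (W.liftQ f hle) := by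
            intro a y
            obtain ⟨x, rfl⟩ := W.mkQ_surjective y
            exact hf a x
          have hg0 : W.liftQ f hle ≠ 0 := by
            intro h0
            apply hf0
            refine LinearMap.ext fun x => ?_
            exact LinearMap.congr_fun h0 (W.mkQ x)
          obtain ⟨s, hs, hs'⟩ := hL2 M ρ (W.liftQ f hle) hρ hg hg0
          exact ⟨s, List.mem_cons_of_mem _ hs, hs'⟩
        · have hg : IsHom (subRp ξ W hW) ρ (f ∘ₗ W.subtype) := fun a w => hf a w.1
          have hbij := hsch R A k W M (subRp ξ W hW) ρ (f ∘ₗ W.subtype) hirr hρ hg h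
          have hiso : Iso (subRp ξ W hW) ρ :=
            ⟨LinearEquiv.ofBijective (f ∘ₗ W.subtype) hbij, hg⟩
          exact ⟨⟨m, σ⟩, List.mem_cons_self, iso_trans (iso_symm hiso) hσ⟩
    · refine ⟨[], fun s hs => absurd hs List.not_mem_nil, ?_⟩
      intro M _ _ ρ f _ _ hf0
      exfalso
      apply hf0
      rw [not_nontrivial_iff_subsingleton] at hne
      refine LinearMap.ext fun x => ?_
      rw [Subsingleton.elim x 0, map_zero, map_zero]

/-- the regular representation -/
def regRp (R A k : Type) [CommRing R] [Ring A] [Algebra R A] [Field k] [Algebra R k] :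
    Rp R A k (k ⊗[R] A) where
  ρ := ((Algebra.lmul k (k ⊗[R] A)) : (k ⊗[R] A) →+* Module.End k (k ⊗[R] A)).comp
    ((Algebra.TensorProduct.includeRight : A →ₐ[R] k ⊗[R] A) : A →+* k ⊗[R] A)
  sc := fun r x => by
    show Algebra.TensorProduct.includeRight (algebraMap R A r) * x = algebraMap R k r • x
    rw [AlgHom.commutes, ← Algebra.smul_def, algebraMap_smul]

theorem regRp_tmul (a : A) (c : k) (b : A) :
    (regRp R A k).ρ a (c ⊗ₜ[R] b) = c ⊗ₜ[R] (a * b) := by
  show ((1 : k) ⊗ₜ[R] a) * (c ⊗ₜ[R] b) = c ⊗ₜ[R] (a * b)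
  rw [Algebra.TensorProduct.tmul_mul_tmul, one_mul]

theorem reg_hom {M : Type} [AddCommGroup M] [Module k M] (ρ : Rp R A k M) (m : M) (hm : m ≠ 0) :
    ∃ f : (k ⊗[R] A) →ₗ[k] M, IsHom (regRp R A k) ρ f ∧ f ≠ 0 := by
  letI : Module R M := Module.compHom M (algebraMap R k)
  have hsm : ∀ (r : R) (x : M), r • x = algebraMap R k r • x := fun r x => rfl
  haveI : IsScalarTower R k M := ⟨fun r c x => by rw [hsm, Algebra.smul_def, mul_smul]⟩
  let g : A →ₗ[R] M :=
    { toFun := fun a => ρ.ρ a m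
      map_add' := fun a b => by rw [map_add]; rfl
      map_smul' := fun r a => by
        rw [RingHom.id_apply, Algebra.smul_def, map_mul]
        exact ρ.sc r _ }
  have hg : ∀ a, g a = ρ.ρ a m := fun a => rfl
  refine ⟨g.liftBaseChange k, ?_, ?_⟩
  · intro a x
    induction x using TensorProduct.induction_on with
    | zero => rw [map_zero, map_zero, map_zero]
    | tmul c b =>
      rw [regRp_tmul, LinearMap.liftBaseChange_tmul, LinearMap.liftBaseChange_tmul, map_smul, hg,
        hg, map_mul]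
      rfl
    | add x y hx hy => rw [map_add, map_add, map_add, map_add, hx, hy]
  · intro h
    apply hm
    have h1 := LinearMap.congr_fun h ((1 : k) ⊗ₜ[R] (1 : A))
    rw [LinearMap.liftBaseChange_tmul, one_smul, hg, map_one] at h1
    exact h1

end

theorem fml (hsim : SimStmt) (hsch : SchStmt) (hinv : InvStmt) (hfin : FinStmt) : FmlStmt := by
  intro R A k _ _ _ _ _ _
  obtain ⟨L, hL1, hL2⟩ := lst hsim hsch hinv hfin (Module.finrank k (k ⊗[R] A)) (k ⊗[R] A)
    (regRp R A k) rfl
  obtain ⟨L', h1, h2, h3⟩ := dedup L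
  refine ⟨L'.length, fun i => (L'.get i).1, fun i => (L'.get i).2, ?_, ?_, ?_⟩
  · intro i
    exact hL1 _ (h1 _ (List.get_mem L' i))
  · intro M _ _ _ ρ hρ
    haveI := hρ.1
    obtain ⟨m, hm⟩ := exists_ne (0 : M)
    obtain ⟨f, hf, hf0⟩ := reg_hom ρ m hm
    obtain ⟨s, hs, hs'⟩ := hL2 M ρ f hρ hf hf0
    obtain ⟨t, ht, ht'⟩ := h2 s hs
    obtain ⟨i, hi⟩ := List.get_of_mem ht
    refine ⟨i, ?_⟩
    have h4 : Iso ρ t.2 := iso_trans hs' ht'
    rw [← hi] at h4
    exact h4
  · intro i i' hi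
    rw [List.pairwise_iff_get] at h3
    rcases lt_trichotomy i i' with h | h | h
    · exact absurd hi (h3 i i' h).1
    · exact h
    · exact absurd hi (h3 i' i h).2

end Pool.Agent.PFC.H13
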