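import Pool.Agent.PFC.StmtsB1

/-! Squad PFC, row LAT (helper13): existence of invariant lattices. -/

namespace Pool.Agent.PFC.H13

open Pool.Agent.PFC Pool.Agent.PFC.B1

theorem lat : LatStmt := by
  classical
  intro F A' L T _ _ _ _ _ _ _ _ _ _ τ
  letI mR : Module (PowerSeries F) T := Module.compHom T (algebraMap (PowerSeries F) L)
  have hsm : ∀ (r : PowerSeries F) (x : T), r • x = algebraMap (PowerSeries F) L r • x :=
    fun r x => rfl
  have hinj : Function.Injective (algebraMap (PowerSeries F) L) := IsFractionRing.injective _ _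
  haveI tf : Module.IsTorsionFree (PowerSeries F) T := by
    refine ⟨fun r hr x y hxy => ?_⟩
    have h1 : algebraMap (PowerSeries F) L r • x = algebraMap (PowerSeries F) L r • y := hxy
    have h2 : algebraMap (PowerSeries F) L r ≠ 0 := by
      intro h
      exact hr.ne_zero ((map_eq_zero_iff _ hinj).mp h)
    exact (smul_right_injective T h2) h1
  let b := Module.finBasis L T
  have hτ : ∀ (r : PowerSeries F) (a : A') (x : T), τ.ρ (r • a) x = r • τ.ρ a x := by
    intro r a x
    rw [Algebra.smul_def, map_mul]
    exact τ.sc r _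
  have hτ2 : ∀ (a : A') (r : PowerSeries F) (x : T), τ.ρ a (r • x) = r • τ.ρ a x := by
    intro a r x
    rw [hsm, hsm, map_smul]
  let φ : (Fin (Module.finrank L T) → A') →ₗ[PowerSeries F] T :=
    { toFun := fun a => ∑ i, τ.ρ (a i) (b i)
      map_add' := by
        intro a a'
        rw [← Finset.sum_add_distrib]
        refine Finset.sum_congr rfl fun i _ => ?_
        rw [Pi.add_apply, map_add, LinearMap.add_apply]
      map_smul' := by
        intro r a
        rw [RingHom.id_apply, Finset.smul_sum]
        refine Finset.sum_congr rfl fun i _ => ?_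
        rw [Pi.smul_apply, hτ] }
  have hφ : ∀ a, φ a = ∑ i, τ.ρ (a i) (b i) := fun a => rfl
  have hst : ∀ (a : A') (x : T), x ∈ LinearMap.range φ → τ.ρ a x ∈ LinearMap.range φ := by
    rintro a x ⟨c, rfl⟩
    refine ⟨fun i => a * c i, ?_⟩
    rw [hφ, hφ, map_sum]
    refine Finset.sum_congr rfl fun i _ => ?_
    rw [map_mul]
    rfl
  haveI : Module.Finite (PowerSeries F) (LinearMap.range φ) := Module.Finite.range φ
  let ρ' : A' →+* Module.End (PowerSeries F) (LinearMap.range φ) :=
    { toFun := fun a =>
        { toFun := fun x => ⟨τ.ρ a x.1, hst a x.1 x.2⟩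
          map_add' := by
            intro x y
            refine Subtype.ext ?_
            show τ.ρ a (x.1 + y.1) = τ.ρ a x.1 + τ.ρ a y.1
            rw [map_add]
          map_smul' := by
            intro r x
            refine Subtype.ext ?_
            show τ.ρ a (r • x.1) = r • τ.ρ a x.1
            rw [hτ2] }
      map_one' := by
        refine LinearMap.ext fun x => Subtype.ext ?_
        show τ.ρ 1 x.1 = x.1
        rw [map_one]
        rfl
      map_mul' := by
        intro a a'
        refine LinearMap.ext fun x => Subtype.ext ?_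
        show τ.ρ (a * a') x.1 = τ.ρ a (τ.ρ a' x.1)
        rw [map_mul]
        rfl
      map_zero' := by
        refine LinearMap.ext fun x => Subtype.ext ?_
        show τ.ρ 0 x.1 = 0
        rw [map_zero]
        rfl
      map_add' := by
        intro a a'
        refine LinearMap.ext fun x => Subtype.ext ?_
        show τ.ρ (a + a') x.1 = τ.ρ a x.1 + τ.ρ a' x.1
        rw [map_add]
        rfl }
  refine ⟨LinearMap.range φ, inferInstance, inferInstance, inferInstance, ?_,
    ⟨ρ', ?_⟩, (LinearMap.range φ).subtype.toAddMonoidHom, ?_, ?_, ?_, ?_⟩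
  · exact Module.free_of_finite_type_torsion_free'
  · intro r x
    refine Subtype.ext ?_
    show τ.ρ (algebraMap (PowerSeries F) A' r) x.1 = r • x.1
    rw [τ.sc, hsm]
  · exact Subtype.val_injective
  · intro r x
    rfl
  · intro a x
    rfl
  · intro t
    obtain ⟨s, hs⟩ := IsLocalization.exist_integer_multiples_of_finite
      (nonZeroDivisors (PowerSeries F)) (fun i => b.repr t i)
    choose c hc using hs
    have hs0 : (s : PowerSeries F) ≠ 0 := nonZeroDivisors.ne_zero s.2
    obtain ⟨n, hn⟩ := IsDiscreteValuationRing.associated_pow_irreducible hs0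
      (PowerSeries.X_irreducible (R := F))
    obtain ⟨v, hv⟩ := hn
    refine ⟨n, ⟨φ fun i => algebraMap (PowerSeries F) A' ((v : PowerSeries F) * c i), ⟨_, rfl⟩⟩, ?_⟩
    show algebraMap (PowerSeries F) L PowerSeries.X ^ n • t =
      φ fun i => algebraMap (PowerSeries F) A' ((v : PowerSeries F) * c i)
    rw [hφ]
    have h1 : ∀ i, τ.ρ (algebraMap (PowerSeries F) A' ((v : PowerSeries F) * c i)) (b i) =
        algebraMap (PowerSeries F) L PowerSeries.X ^ n • (b.repr t i • b i) := by
      intro i
      rw [τ.sc, map_mul, hc i, ← map_pow, ← hv, map_mul, Algebra.smul_def]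
      rw [smul_smul]
      congr 1
      ring
    rw [Finset.sum_congr rfl fun i _ => h1 i, ← Finset.smul_sum, b.sum_repr]

end Pool.Agent.PFC.H13
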