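import Pool.Agent.PFC.StmtsB4a

/-! Squad PFC, row PSQ (helper13): quotient of a (V × W)-frame by the right action of W. -/

namespace Pool.Agent.PFC.H13

open Pool.Agent.PFC

/-- orbit relation of `1 × W` -/
def rel (V W Ω : Type) [Group V] [Group W] [MulAction (V × W) Ω] : Setoid Ω where
  r := fun ω ω' => ∃ w : W, ((1 : V), w) • ω = ω'
  iseqv := {
    refl := fun ω => ⟨1, by
      have : ((1 : V), (1 : W)) = (1 : V × W) := rfl
      rw [this, one_smul]⟩
    symm := fun {ω ω'} ⟨w, hw⟩ => ⟨w⁻¹, by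
      rw [← hw, ← mul_smul]
      have : ((1 : V), w⁻¹) * ((1 : V), w) = (1 : V × W) := by
        rw [Prod.mk_mul_mk, mul_one, inv_mul_cancel]; rfl
      rw [this, one_smul]⟩
    trans := fun {ω ω' ω''} ⟨w, hw⟩ ⟨w', hw'⟩ => ⟨w' * w, by
      rw [← hw', ← hw, ← mul_smul, Prod.mk_mul_mk, mul_one]⟩ }

theorem psq : PsqStmt := by
  classical
  intro F V W M S _ _ _ _ _ _ _ ρ σ X hX q s f hq hs hqs
  obtain ⟨Ω, fΩ, aΩ, b, c, ⟨hb, hc, hsum⟩, -⟩ := hX
  letI : Setoid Ω := rel V W Ω
  let Q : Type := Quotient (rel V W Ω)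
  letI : Fintype Q := Quotient.fintype _
  let mk : Ω → Q := fun ω => Quotient.mk (rel V W Ω) ω
  have hmk : ∀ ω ω' : Ω, mk ω = mk ω' ↔ ∃ w : W, ((1 : V), w) • ω = ω' := by
    intro ω ω'
    constructor
    · intro h
      exact Quotient.exact h
    · intro h
      exact Quotient.sound h
  have hcomm : ∀ (v : V) (w : W) (ω : Ω), (v, w) • ω = ((1 : V), w) • ((v, (1 : W)) • ω) := by
    intro v w ω
    rw [← mul_smul, Prod.mk_mul_mk, mul_one, one_mul]
  have hcomm' : ∀ (v : V) (w : W) (ω : Ω), (v, w) • ω = (v, (1 : W)) • (((1 : V), w) • ω) := by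
    intro v w ω
    rw [← mul_smul, Prod.mk_mul_mk, mul_one, one_mul]
  letI aQ : MulAction V Q :=
    { smul := fun v y => Quotient.map' (s₁ := rel V W Ω) (s₂ := rel V W Ω)
        (fun ω => (v, (1 : W)) • ω) (by
          rintro ω ω' ⟨w, hw⟩
          refine ⟨w, ?_⟩
          rw [← hcomm, hcomm', hw]) y
      one_smul := by
        intro y
        induction y using Quotient.inductionOn with
        | h ω =>
          show mk ((1, 1) • ω) = mk ω
          have : ((1 : V), (1 : W)) = (1 : V × W) := rfl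
          rw [this, one_smul]
      mul_smul := by
        intro v v' y
        induction y using Quotient.inductionOn with
        | h ω =>
          show mk ((v * v', 1) • ω) = mk ((v, 1) • ((v', 1) • ω))
          rw [← mul_smul, Prod.mk_mul_mk, one_mul] }
  have hact : ∀ (v : V) (ω : Ω), v • mk ω = mk ((v, (1 : W)) • ω) := fun v ω => rfl
  let b' : Q → S := fun y => Quotient.lift (s := rel V W Ω) (fun ω => q (b ω)) (by
    rintro ω ω' ⟨w, hw⟩
    show q (b ω) = q (b ω')
    rw [← hw, hb, hq, map_one]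
    rfl) y
  have hb' : ∀ ω, b' (mk ω) = q (b ω) := fun ω => rfl
  let c' : Q → (S →ₗ[F] F) := fun y => ∑ ω ∈ Finset.univ.filter (fun ω => mk ω = y), (c ω).comp s
  have hc' : ∀ y x, c' y x = ∑ ω ∈ Finset.univ.filter (fun ω => mk ω = y), c ω (s x) := by
    intro y x
    show (∑ ω ∈ Finset.univ.filter (fun ω => mk ω = y), (c ω).comp s) x = _
    rw [LinearMap.sum_apply]
    rfl
  refine ⟨Q, inferInstance, aQ, b', c', ⟨?_, ?_, ?_⟩, fun _ => trivial⟩
  · intro v y
    induction y using Quotient.inductionOn with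
    | h ω =>
      show b' (v • mk ω) = σ v (b' (mk ω))
      rw [hact, hb', hb', hb, hq]
  · intro v y x
    rw [hc', hc']
    symm
    refine Finset.sum_bij (fun ω _ => (v, f v) • ω) ?_ ?_ ?_ ?_
    · intro ω hω
      rw [Finset.mem_filter] at hω ⊢
      refine ⟨Finset.mem_univ _, ?_⟩
      rw [← hω.2, hact]
      rw [hmk]
      refine ⟨(f v)⁻¹, ?_⟩
      rw [← mul_smul, Prod.mk_mul_mk, one_mul, inv_mul_cancel]
    · intro ω _ ω' _ h
      exact MulAction.injective _ h
    · intro ω hω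
      rw [Finset.mem_filter] at hω
      refine ⟨(v, f v)⁻¹ • ω, ?_, by rw [smul_inv_smul]⟩
      rw [Finset.mem_filter]
      refine ⟨Finset.mem_univ _, ?_⟩
      have h1 : y = v⁻¹ • mk ω := by rw [hω.2, inv_smul_smul]
      rw [h1, hact, hmk]
      refine ⟨f v, ?_⟩
      rw [← mul_smul]
      congr 1
      rw [Prod.inv_mk, Prod.mk_mul_mk, one_mul, mul_inv_cancel]
    · intro ω _
      rw [hs, hc]
  · intro x
    have h1 : ∑ y, c' y x • b' y = ∑ y : Q, ∑ ω ∈ Finset.univ.filter (fun ω => mk ω = y),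
        c ω (s x) • q (b ω) := by
      refine Finset.sum_congr rfl fun y _ => ?_
      rw [hc', Finset.sum_smul]
      refine Finset.sum_congr rfl fun ω hω => ?_
      rw [Finset.mem_filter] at hω
      rw [← hω.2, hb']
    rw [h1, Finset.sum_fiberwise]
    have h2 := congrArg q (hsum (s x))
    rw [map_sum, hqs] at h2
    refine Eq.trans (Finset.sum_congr rfl fun ω _ => ?_) h2
    rw [map_smul]

end Pool.Agent.PFC.H13
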