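import Pool.Agent.PFC.StmtsB4b

/-! Squad PFC, row QLX (helper13): existence of a local idempotent over a character. -/

noncomputable section

namespace Pool.Agent.PFC.H13

open Pool.Agent.PFC Polynomial

/-- Fitting idempotent: a polynomial without constant term in a non nilpotent element -/
theorem fit {F A : Type} [Field F] [Ring A] [Algebra F A] [FiniteDimensional F A] (x : A)
    (hx : ¬ IsNilpotent x) :
    ∃ p : F[X], (x * aeval x p) * (x * aeval x p) = x * aeval x p ∧ x * aeval x p ≠ 0 := by
  have hint : IsIntegral F x := Algebra.IsIntegral.isIntegral x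
  have hμ : minpoly F x ≠ 0 := minpoly.ne_zero hint
  obtain ⟨g, hg, hg0⟩ := Polynomial.exists_eq_pow_rootMultiplicity_mul_and_not_dvd
    (minpoly F x) hμ 0
  rw [C_0, sub_zero] at hg hg0
  set k := rootMultiplicity 0 (minpoly F x) with hk
  have hco : IsCoprime ((X : F[X]) ^ (k + 1)) g :=
    ((Polynomial.irreducible_X (R := F)).coprime_iff_not_dvd.mpr hg0).pow_left
  obtain ⟨a, c, hac⟩ := hco
  have h0 : aeval x ((X : F[X]) ^ k * g) = 0 := by
    rw [← hg]
    exact minpoly.aeval F x
  have hf : x * aeval x (a * X ^ k) = aeval x (a * X ^ (k + 1)) := by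
    have h1 : a * (X : F[X]) ^ (k + 1) = X * (a * X ^ k) := by ring
    rw [h1, map_mul (aeval x) X, aeval_X]
  refine ⟨a * X ^ k, ?_, ?_⟩
  · rw [hf, ← map_mul]
    have h1 : (a * (X : F[X]) ^ (k + 1)) * (a * X ^ (k + 1)) =
        a * X ^ (k + 1) - (a * X * c) * (X ^ k * g) := by
      linear_combination (a * (X : F[X]) ^ (k + 1)) * hac
    rw [h1, map_sub, map_mul (aeval x) (a * X * c), h0, mul_zero, sub_zero]
  · intro h
    rw [hf] at h
    apply hx
    refine ⟨k, ?_⟩
    have h1 : (X : F[X]) ^ k = X ^ k * (a * X ^ (k + 1)) + c * (X ^ k * g) := by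
      linear_combination -((X : F[X]) ^ k) * hac
    have h2 := congrArg (aeval x) h1
    rw [map_add, map_mul (aeval x) (X ^ k) (a * X ^ (k + 1)), h, mul_zero,
      map_mul (aeval x) c, h0, mul_zero, add_zero, map_pow, aeval_X] at h2
    exact h2

theorem mem_fx {F V : Type} [Field F] [CommGroup V] (X : IA F V) (a : X.A) :
    a ∈ Fx (cj F X.ι) ⊤ ↔ ∀ v, X.ι v * a = a * X.ι v := by
  constructor
  · intro h v
    have h1 : X.ι v * (a * X.ι v⁻¹) = a := h v (Subgroup.mem_top v)
    calc X.ι v * a = X.ι v * (a * X.ι v⁻¹) * X.ι v := by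
          rw [mul_assoc, mul_assoc, ← map_mul, inv_mul_cancel, map_one, mul_one]
      _ = a * X.ι v := by rw [h1]
  · intro h v _
    show X.ι v * (a * X.ι v⁻¹) = a
    rw [← mul_assoc, h v, mul_assoc, ← map_mul, mul_inv_cancel, map_one, mul_one]

theorem qlx : QlxStmt := by
  classical
  intro F V _ _ X b hb
  let Cn : Subalgebra F X.A := Subalgebra.centralizer F (Set.range X.ι)
  have hC : ∀ a, a ∈ Fx (cj F X.ι) ⊤ ↔ a ∈ Cn := by
    intro a
    rw [mem_fx, Subalgebra.mem_centralizer_iff]
    constructor
    · rintro h _ ⟨v, rfl⟩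
      exact h v
    · intro h v
      exact h _ ⟨v, rfl⟩
  let L : X.A → (X.A →ₗ[F] X.A) := fun j => LinearMap.mulLeft F j ∘ₗ LinearMap.mulRight F j
  have hL : ∀ j a, L j a = j * (a * j) := fun j a => rfl
  let D : X.A → ℕ := fun j => Module.finrank F (LinearMap.range (L j))
  have main : ∀ n : ℕ, ∀ j, j ∈ Cn → j * j = j → b j = 1 → D j = n → ∃ j, Loc X b j := by
    intro n
    induction n using Nat.strong_induction_on with
    | _ n ih =>
      intro j hj hjj hbj hD
      by_cases hnil : ∀ x ∈ Fx (cj F X.ι) ⊤, b (j * x * j) = 0 → IsNilpotent (j * x * j)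
      · exact ⟨j, (hC j).mpr hj, hjj, hbj, hnil⟩
      · push Not at hnil
        obtain ⟨y, hy, hby, hyn⟩ := hnil
        set x := j * y * j with hxdef
        have hx : x ∈ Cn := Cn.mul_mem (Cn.mul_mem hj ((hC y).mp hy)) hj
        have hjx : j * x = x := by rw [hxdef, ← mul_assoc, ← mul_assoc, hjj]
        have hxj : x * j = x := by rw [hxdef, mul_assoc, hjj]
        obtain ⟨p, hp1, hp2⟩ := fit (F := F) x hyn
        have hcom : x * aeval x p = aeval x p * x := by
          have h1 : aeval x (Polynomial.X * p) = aeval x (p * Polynomial.X) := by rw [mul_comm]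
          rw [map_mul, map_mul, aeval_X] at h1
          exact h1
        have hpC : aeval x p ∈ Cn := by
          have h1 : aeval x p ∈ Algebra.adjoin F {x} := Polynomial.aeval_mem_adjoin_singleton F x
          exact Algebra.adjoin_le (Set.singleton_subset_iff.mpr hx) h1
        set f := x * aeval x p with hfdef
        have hfC : f ∈ Cn := Cn.mul_mem hx hpC
        have hjf : j * f = f := by rw [hfdef, ← mul_assoc, hjx]
        have hfj : f * j = f := by rw [hcom, mul_assoc, hxj]
        have hbf : b f = 0 := by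
          rw [hfdef, hb.mul x ((hC x).mpr hx) _ ((hC _).mpr hpC), hby, zero_mul]
        have hid : (j - f) * (j - f) = j - f := by
          rw [sub_mul, mul_sub, mul_sub, hjj, hjf, hfj, hp1]
          abel
        refine ih (D (j - f)) ?_ (j - f) (Cn.sub_mem hj hfC) hid ?_ rfl
        · rw [← hD]
          refine Submodule.finrank_lt_finrank_of_lt ?_
          refine lt_of_le_of_ne ?_ ?_
          · rintro _ ⟨a, rfl⟩
            refine ⟨(j - f) * (a * (j - f)), ?_⟩
            rw [hL, hL]
            have h1 : j * (j - f) = j - f := by rw [mul_sub, hjj, hjf]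
            have h2 : (j - f) * j = j - f := by rw [sub_mul, hjj, hfj]
            rw [mul_assoc (j - f), mul_assoc a, h2, ← mul_assoc, h1]
          · intro h
            have h1 : f ∈ LinearMap.range (L j) := ⟨f, by rw [hL, hfj, hjf]⟩
            rw [← h] at h1
            obtain ⟨a, ha⟩ := h1
            rw [hL] at ha
            apply hp2
            have h2 : f * (j - f) = 0 := by rw [mul_sub, hfj, hp1, sub_self]
            calc f = f * f := hp1.symm
              _ = f * ((j - f) * (a * (j - f))) := by rw [ha]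
              _ = 0 := by rw [← mul_assoc, h2, zero_mul]
        · rw [map_sub, hbj, hbf, sub_zero]
  exact main _ 1 Cn.one_mem (mul_one 1) hb.one rfl

end Pool.Agent.PFC.H13
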