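import Pool.Agent.PFC.StmtsB4b

/-! Squad PFC, row QOP (helper13): Brauer quotients of opposite algebras and the trivial cases. -/

noncomputable section

namespace Pool.Agent.PFC.H13

open Pool.Agent.PFC

theorem cj_app {F V A : Type} [Field F] [Group V] [Ring A] [Algebra F A] (α : V →* A) (v : V)
    (a : A) : cj F α v a = α v * (a * α v⁻¹) := rfl

/-- transport of a split Brauer quotient along isomorphisms of representations -/
theorem brs_congr {F V M N M2 N2 : Type} [Field F] [Group V] [AddCommGroup M] [Module F M]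
    [AddCommGroup N] [Module F N] [AddCommGroup M2] [Module F M2] [AddCommGroup N2] [Module F N2]
    (ρ : V →* (M →ₗ[F] M)) (ρ' : V →* (N →ₗ[F] N)) (ρ2 : V →* (M2 →ₗ[F] M2))
    (ρ2' : V →* (N2 →ₗ[F] N2)) (Q : Subgroup V) (β : M →ₗ[F] N) (s : N →ₗ[F] M)
    (e : M ≃ₗ[F] M2) (e' : N ≃ₗ[F] N2) (he : ∀ v m, ρ2 v (e m) = e (ρ v m))
    (he' : ∀ v n, ρ2' v (e' n) = e' (ρ' v n)) (h : BrS ρ ρ' Q β s) :
    BrS ρ2 ρ2' Q (e'.toLinearMap ∘ₗ β ∘ₗ e.symm.toLinearMap)
      (e.toLinearMap ∘ₗ s ∘ₗ e'.symm.toLinearMap) := by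
  have hs : ∀ v m, e.symm (ρ2 v m) = ρ v (e.symm m) := by
    intro v m
    obtain ⟨m, rfl⟩ := e.surjective m
    rw [he, LinearEquiv.symm_apply_apply, LinearEquiv.symm_apply_apply]
  have hs' : ∀ v m, e'.symm (ρ2' v m) = ρ' v (e'.symm m) := by
    intro v m
    obtain ⟨m, rfl⟩ := e'.surjective m
    rw [he', LinearEquiv.symm_apply_apply, LinearEquiv.symm_apply_apply]
  refine ⟨?_, ?_, ?_, ?_, ?_⟩
  · intro n
    show e' (β (e.symm (e (s (e'.symm n))))) = n
    rw [LinearEquiv.symm_apply_apply, h.bs, LinearEquiv.apply_symm_apply]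
  · intro v m
    show e' (β (e.symm (ρ2 v m))) = ρ2' v (e' (β (e.symm m)))
    rw [hs, h.eb, he']
  · intro v n
    show e (s (e'.symm (ρ2' v n))) = ρ2 v (e (s (e'.symm n)))
    rw [hs', h.es, he]
  · intro q hq n
    obtain ⟨n, rfl⟩ := e'.surjective n
    rw [he', h.tr q hq]
  · have key : ∀ T ∈ PT ρ Q, e.toLinearMap ∘ₗ T ∘ₗ e.symm.toLinearMap ∈ PT ρ2 Q := by
      intro T hT
      refine Submodule.span_induction ?_ ?_ ?_ ?_ hT
      · rintro T ⟨K, S, f, hK, hS, hf, hT⟩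
        refine Submodule.subset_span
          ⟨K, S, e.toLinearMap ∘ₗ f ∘ₗ e.symm.toLinearMap, hK, hS, ?_, ?_⟩
        · intro k hk m
          show ρ2 k (e (f (e.symm m))) = e (f (e.symm (ρ2 k m)))
          rw [he, hf k hk, hs]
        · intro m
          show e (T (e.symm m)) = ∑ x ∈ S, ρ2 x (e (f (e.symm (ρ2 x⁻¹ m))))
          rw [hT, map_sum]
          refine Finset.sum_congr rfl fun x _ => ?_
          rw [he, hs]
      · rw [LinearMap.zero_comp, LinearMap.comp_zero]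
        exact Submodule.zero_mem _
      · intro T T' _ _ h1 h2
        rw [LinearMap.add_comp, LinearMap.comp_add]
        exact Submodule.add_mem _ h1 h2
      · intro c T _ h1
        rw [LinearMap.smul_comp, LinearMap.comp_smul]
        exact Submodule.smul_mem _ _ h1
    have h1 := key _ h.hg
    have h2 : e.toLinearMap ∘ₗ (LinearMap.id - s ∘ₗ β) ∘ₗ e.symm.toLinearMap =
        LinearMap.id - (e.toLinearMap ∘ₗ s ∘ₗ e'.symm.toLinearMap) ∘ₗ
          (e'.toLinearMap ∘ₗ β ∘ₗ e.symm.toLinearMap) := by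
      refine LinearMap.ext fun m => ?_
      show e (e.symm m - s (β (e.symm m))) = m - e (s (e'.symm (e' (β (e.symm m)))))
      rw [map_sub, LinearEquiv.apply_symm_apply, LinearEquiv.symm_apply_apply]
    rw [h2] at h1
    exact h1

/-- the identity splits the Brauer quotient of a trivial action -/
theorem brs_triv {F V M : Type} [Field F] [Group V] [AddCommGroup M] [Module F M]
    (ρ : V →* (M →ₗ[F] M)) (Q : Subgroup V) (h : ∀ v m, ρ v m = m) :
    BrS ρ ρ Q LinearMap.id LinearMap.id := by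
  refine ⟨fun _ => rfl, fun _ _ => rfl, fun _ _ => rfl, fun q _ n => h q n, ?_⟩
  rw [LinearMap.id_comp, sub_self]
  exact Submodule.zero_mem _

theorem abr_triv {F V : Type} [Field F] [CommGroup V] (X : IA F V) (Q : Subgroup V)
    (h : ∀ v m, cj F X.ι v m = m) : BQ X X Q :=
  ⟨LinearMap.id, LinearMap.id, ⟨brs_triv _ Q h, fun _ _ _ _ => rfl, fun _ => rfl⟩⟩

theorem qop : QopStmt := by
  intro F V _ _ _
  refine ⟨?_, ?_, ?_⟩
  · rintro X Y Q ⟨β, s, h⟩
    have hc : ∀ (Z : IA F V) v (a : Z.A),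
        cj F Z.op.ι v (MulOpposite.op a : Z.Aᵐᵒᵖ) = (MulOpposite.op (cj F Z.ι v a) : Z.Aᵐᵒᵖ) := by
      intro Z v a
      show (MulOpposite.op (Z.ι v⁻¹) * (MulOpposite.op a * MulOpposite.op (Z.ι v⁻¹⁻¹)) : Z.Aᵐᵒᵖ) =
        (MulOpposite.op (Z.ι v * (a * Z.ι v⁻¹)) : Z.Aᵐᵒᵖ)
      rw [inv_inv, ← MulOpposite.op_mul, ← MulOpposite.op_mul, mul_assoc]
    let eX : X.A ≃ₗ[F] X.op.A := MulOpposite.opLinearEquiv F
    let eY : Y.A ≃ₗ[F] Y.op.A := MulOpposite.opLinearEquiv F
    refine ⟨eY.toLinearMap ∘ₗ β ∘ₗ eX.symm.toLinearMap,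
      eX.toLinearMap ∘ₗ s ∘ₗ eY.symm.toLinearMap, ⟨?_, ?_, ?_⟩⟩
    · exact brs_congr (cj F X.ι) (cj F Y.ι) (cj F X.op.ι) (cj F Y.op.ι) Q β s eX eY
        (fun v m => hc X v m) (fun v n => hc Y v n) h.toBrS
    · have hfx : ∀ a : X.A, eX a ∈ Fx (cj F X.op.ι) Q → a ∈ Fx (cj F X.ι) Q := by
        intro a ha v hv
        have h1 := ha v hv
        have h2 : eX (cj F X.ι v a) = eX a := (hc X v a).symm.trans h1
        exact eX.injective h2
      intro a ha b hb
      obtain ⟨a, rfl⟩ := eX.surjective a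
      obtain ⟨b, rfl⟩ := eX.surjective b
      show MulOpposite.op (β (b * a)) = MulOpposite.op (β a) * MulOpposite.op (β b)
      rw [h.mul b (hfx b hb) a (hfx a ha), MulOpposite.op_mul]
    · intro v
      show MulOpposite.op (β (X.ι v⁻¹)) = MulOpposite.op (Y.ι v⁻¹)
      rw [h.cov]
  · intro Q
    refine abr_triv _ Q fun v m => ?_
    have key : ∀ x : F, (1 : F) * (x * 1) = x := fun x => by rw [one_mul, mul_one]
    exact key m
  · intro Q
    refine abr_triv _ Q fun v m => ?_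
    have key : ∀ x : MonoidAlgebra F V,
        MonoidAlgebra.of F V v * (x * MonoidAlgebra.of F V v⁻¹) = x := by
      intro x
      rw [mul_comm x, ← mul_assoc, ← map_mul, mul_inv_cancel, map_one, one_mul]
    exact key m

end Pool.Agent.PFC.H13
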