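import Pool.Agent.PFC.StmtsB2

/-! Squad PFC, row SIM (helper13): existence of an irreducible subrepresentation. -/

noncomputable section

namespace Pool.Agent.PFC.H13

open Pool.Agent.PFC Pool.Agent.PFC.B1 Pool.Agent.PFC.B2

theorem sim : SimStmt := by
  classical
  intro R A k M _ _ _ _ _ _ _ _ ρ hM
  have main : ∀ n : ℕ, ∀ W : Submodule k M, ∀ h : Stb ρ W, W ≠ ⊥ → Module.finrank k W = n →
      ∃ (W : Submodule k M) (h : Stb ρ W), Irr (subRp ρ W h) := by
    intro n
    induction n using Nat.strong_induction_on with
    | _ n ih =>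
      intro W h hW hn
      by_cases hirr : ∀ U : Submodule k W, Stb (subRp ρ W h) U → U = ⊥ ∨ U = ⊤
      · refine ⟨W, h, ?_, hirr⟩
        exact Submodule.nontrivial_iff_ne_bot.mpr hW
      · push Not at hirr
        obtain ⟨U, hU, hU0, hU1⟩ := hirr
        have hst : Stb ρ (U.map W.subtype) := by
          rintro a _ ⟨u, hu, rfl⟩
          exact ⟨(subRp ρ W h).ρ a u, hU a u hu, rfl⟩
        have hfr : Module.finrank k (U.map W.subtype) = Module.finrank k U :=
          Submodule.finrank_map_subtype_eq W U
        refine ih (Module.finrank k (U.map W.subtype)) ?_ (U.map W.subtype) hst ?_ rfl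
        · rw [hfr, ← hn]
          exact Submodule.finrank_lt hU1
        · intro h0
          apply hU0
          rw [Submodule.eq_bot_iff] at h0 ⊢
          intro u hu
          exact Subtype.ext (h0 u.1 ⟨u, hu, rfl⟩)
  exact main _ ⊤ (fun a w _ => Submodule.mem_top) top_ne_bot rfl

end Pool.Agent.PFC.H13
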