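import Pool.Agent.PFC.StmtsB3

/-! Squad PFC, row SKE (helper13): the presented algebra exists. -/

noncomputable section

namespace Pool.Agent.PFC.H13

open Pool.Agent.PFC Pool.Agent.PFC.B3 MvPolynomial

section

variable {k I E : Type} [CommRing k] [Fintype I] [Group E]

/-- the relation polynomial -/
def ff (p : I → I) (c : I → k) (i : I) : MvPolynomial I k := C (c i) * X (p i)

/-- the action of `E` on the polynomial ring -/
def actA (η : I → E →* kˣ) (e : E) : MvPolynomial I k →ₐ[k] MvPolynomial I k :=
  aeval (fun i => C (η i e : k) * X i)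

theorem actA_X (η : I → E →* kˣ) (e : E) (i : I) :
    actA η e (X i : MvPolynomial I k) = C (η i e : k) * X i := by
  rw [actA, aeval_X]

theorem actA_C (η : I → E →* kˣ) (e : E) (a : k) :
    actA η e (C a : MvPolynomial I k) = C a := by
  rw [actA, aeval_C, algebraMap_eq]

theorem actA_one (η : I → E →* kˣ) : actA (k := k) η (1 : E) = AlgHom.id k _ := by
  refine algHom_ext fun i => ?_
  rw [actA_X, map_one, Units.val_one, C_1, one_mul]
  rfl

theorem actA_mul (η : I → E →* kˣ) (e e' : E) :
    actA (k := k) η (e * e') = (actA η e).comp (actA η e') := by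
  refine algHom_ext fun i => ?_
  rw [actA_X, AlgHom.comp_apply, actA_X, map_mul (η i), map_mul (actA η e), actA_C, actA_X,
    Units.val_mul, C_mul]
  ring

theorem actA_le (q : I → ℕ) (p : I → I) (c : I → k) (η : I → E →* kˣ)
    (hη : ∀ i e, η i e ^ q i = η (p i) e) (e : E) :
    JJ q (ff p c) ≤ (JJ q (ff p c)).comap (actA η e) := by
  rw [JJ, Ideal.span_le]
  rintro _ ⟨i, rfl⟩
  rw [SetLike.mem_coe, Ideal.mem_comap]
  have h1 : actA η e ((X i : MvPolynomial I k) ^ q i - ff p c i) =
      C (η (p i) e : k) * (X i ^ q i - ff p c i) := by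
    rw [ff, map_sub, map_pow, actA_X, map_mul, actA_C, actA_X, mul_pow, ← C_pow, ← hη i e,
      Units.val_pow_eq_pow_val]
    ring
  rw [h1]
  exact Ideal.mul_mem_left _ _ (Ideal.subset_span ⟨i, rfl⟩)

end

theorem ske (hbas : BasStmt) : SkeStmt := by
  classical
  intro k I E _ _ _ q p c η hq hη
  have hf : ∀ i, ff p c i ∈ Lt k I (q i) := by
    intro i
    have h1 : ff p c i = c i • (monomial (Finsupp.single (p i) 1) 1 : MvPolynomial I k) := by
      rw [ff, ← C_mul']
      rfl
    rw [h1]
    refine Submodule.smul_mem _ _ (Submodule.subset_span ⟨_, ?_, rfl⟩)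
    rw [Finsupp.degree_single]
    have := hq i
    omega
  obtain ⟨bD, hbD⟩ := hbas k I q (ff p c) (fun i => by have := hq i; omega) hf
  let D : Type := MvPolynomial I k ⧸ JJ q (ff p c)
  let mk : MvPolynomial I k →ₐ[k] D := Ideal.Quotient.mkₐ k (JJ q (ff p c))
  have hmk : Function.Surjective mk := Ideal.Quotient.mk_surjective
  let B : E → (D →ₐ[k] D) := fun e =>
    Ideal.quotientMapₐ (JJ q (ff p c)) (actA η e) (actA_le q p c η hη e)
  have hB : ∀ e P, B e (mk P) = mk (actA η e P) := fun e P => rfl
  letI aD : MulSemiringAction E D :=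
    { smul := fun e d => B e d
      one_smul := by
        intro d
        obtain ⟨P, rfl⟩ := hmk d
        show B 1 (mk P) = mk P
        rw [hB, actA_one]
        rfl
      mul_smul := by
        intro e e' d
        obtain ⟨P, rfl⟩ := hmk d
        show B (e * e') (mk P) = B e (B e' (mk P))
        rw [hB, hB, hB, actA_mul]
        rfl
      smul_zero := fun e => map_zero (B e)
      smul_add := fun e => map_add (B e)
      smul_one := fun e => map_one (B e)
      smul_mul := fun e => map_mul (B e) }
  have hsm : ∀ (e : E) P, e • mk P = mk (actA η e P) := fun e P => rfl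
  haveI : SMulCommClass E k D := ⟨fun e a d => (map_smul (B e) a d)⟩
  let Λ : Type := SkewMonoidAlgebra D E
  have hone : ∀ e : E, e • (1 : D) = 1 := fun e => smul_one e
  let j : MvPolynomial I k →ₐ[k] Λ :=
    { toRingHom := (SkewMonoidAlgebra.singleOneRingHom (k := D) (G := E)).comp (mk : MvPolynomial I k →+* D)
      commutes' := by
        intro a
        show SkewMonoidAlgebra.single (1 : E) (mk (algebraMap k _ a)) = _
        rw [AlgHom.commutes]
        rfl }
  have hj : ∀ P, j P = SkewMonoidAlgebra.single (1 : E) (mk P) := fun P => rfl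
  let ε : E →* Λ := SkewMonoidAlgebra.of D E
  have hε : ∀ e, ε e = SkewMonoidAlgebra.single e (1 : D) := fun e => rfl
  have hjε : ∀ P e, j P * ε e = SkewMonoidAlgebra.single e (mk P) := by
    intro P e
    rw [hj, hε, SkewMonoidAlgebra.single_mul_single, one_mul, hone, mul_one]
  have hεj : ∀ P e, ε e * j P = SkewMonoidAlgebra.single e (mk (actA η e P)) := by
    intro P e
    rw [hj, hε, SkewMonoidAlgebra.single_mul_single, one_mul, mul_one, hsm]
  let bs : Module.Basis ((∀ i, Fin (q i)) × E) k Λ :=
    Module.Basis.smulTower bD (SkewMonoidAlgebra.basisSingleOne (k := D) (G := E))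
  refine ⟨Λ, inferInstance, inferInstance, ⟨⟨j, ε, ?_, ?_, bs, ?_, ?_⟩⟩⟩
  · intro i
    have h0 : ∀ n : ℕ, j (X i) ^ n = SkewMonoidAlgebra.single (1 : E) (mk (X i ^ n)) := by
      intro n
      induction n with
      | zero => rw [pow_zero, pow_zero, map_one]; rfl
      | succ n ih =>
        rw [pow_succ, ih, hj, SkewMonoidAlgebra.single_mul_single, one_mul, one_smul, pow_succ,
          map_mul]
    have h1 : (X i : MvPolynomial I k) ^ q i - ff p c i ∈ JJ q (ff p c) :=
      Ideal.subset_span ⟨i, rfl⟩
    have h2 : mk ((X i : MvPolynomial I k) ^ q i) = mk (ff p c i) :=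
      Ideal.Quotient.eq.mpr h1
    rw [h0, h2, ff, C_mul', map_smul, hj, SkewMonoidAlgebra.smul_single]
  · intro e i
    rw [hjε, hεj, actA_X, C_mul', map_smul, SkewMonoidAlgebra.smul_single]
  · intro α e
    rw [hjε]
    show (Module.Basis.smulTower bD (SkewMonoidAlgebra.basisSingleOne (k := D) (G := E))) (α, e) = _
    rw [Module.Basis.smulTower_apply]
    have h1 : (SkewMonoidAlgebra.basisSingleOne (k := D) (G := E)) e =
        SkewMonoidAlgebra.single e (1 : D) := by
      rfl
    rw [h1, hbD, SkewMonoidAlgebra.smul_single, smul_eq_mul, mul_one]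
    rfl
  · intro T _ j' ε' hr hc1 hc2
    have hle : JJ q (ff p c) ≤ RingHom.ker j' := by
      rw [JJ, Ideal.span_le]
      rintro _ ⟨i, rfl⟩
      rw [SetLike.mem_coe, RingHom.mem_ker, map_sub, map_pow, hr, ff, map_mul, sub_self]
    let f' : D →+* T := Ideal.Quotient.lift (JJ q (ff p c)) j' (fun a ha => hle ha)
    have hf' : ∀ P, f' (mk P) = j' P := fun P => rfl
    have key : ∀ (e : E) (P : MvPolynomial I k), j' (actA η e P) * ε' e = ε' e * j' P := by
      intro e P
      induction P using MvPolynomial.induction_on with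
      | C a => rw [actA_C, hc2]
      | add P Q hP hQ => rw [map_add, map_add, map_add, add_mul, mul_add, hP, hQ]
      | mul_X P i hP =>
        rw [map_mul, map_mul, map_mul, actA_X, map_mul, ← mul_assoc (ε' e), ← hP,
          mul_assoc, ← hc1, mul_assoc]
    have hcomm : ∀ {x : D} {y : E}, f' (y • x) * ε' y = ε' y * f' x := by
      intro x y
      obtain ⟨P, rfl⟩ := hmk x
      rw [hsm, hf', hf']
      exact key y P
    refine ⟨SkewMonoidAlgebra.liftNCRingHom f' ε' hcomm, ?_, ?_⟩
    · intro P
      rw [hj]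
      show SkewMonoidAlgebra.liftNC (f' : D →+ T) ε' (SkewMonoidAlgebra.single (1 : E) (mk P)) = j' P
      rw [SkewMonoidAlgebra.liftNC_single, map_one, mul_one]
      rfl
    · intro e
      rw [hε]
      show SkewMonoidAlgebra.liftNC (f' : D →+ T) ε' (SkewMonoidAlgebra.single e (1 : D)) = ε' e
      rw [SkewMonoidAlgebra.liftNC_single]
      show f' 1 * ε' e = ε' e
      rw [map_one, one_mul]

end Pool.Agent.PFC.H13
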