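import Pool.Agent.PFC.StmtsB5a

/-! Squad PFC, row SUV of block B5a (helper13): the lift is surjective. -/

noncomputable section

namespace Pool.Agent.PFC.H13

open Pool.Agent.PFC Pool.Agent.PFC.B5a

section MI

variable {S : Type} [CommRing S] {n : ℕ}

/-- matrices with entries in an ideal -/
def MI (J : Ideal S) : Submodule S (Matrix (Fin n) (Fin n) S) where
  carrier := {X | ∀ i j, X i j ∈ J}
  add_mem' := fun hX hY i j => J.add_mem (hX i j) (hY i j)
  zero_mem' := fun _ _ => J.zero_mem
  smul_mem' := fun c _ hX i j => J.mul_mem_left c (hX i j)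

theorem MI_mul {J K : Ideal S} {X Y : Matrix (Fin n) (Fin n) S} (hX : X ∈ MI J) (hY : Y ∈ MI K) :
    X * Y ∈ MI (J * K) := by
  intro i j
  rw [Matrix.mul_apply]
  exact Ideal.sum_mem _ fun k _ => Ideal.mul_mem_mul (hX i k) (hY k j)

theorem MI_mul_left {J : Ideal S} (X : Matrix (Fin n) (Fin n) S)
    {Y : Matrix (Fin n) (Fin n) S} (hY : Y ∈ MI J) : X * Y ∈ MI J := by
  intro i j
  rw [Matrix.mul_apply]
  exact Ideal.sum_mem _ fun k _ => J.mul_mem_left _ (hY k j)

theorem MI_mul_right {J : Ideal S} {X : Matrix (Fin n) (Fin n) S}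
    (hX : X ∈ MI J) (Y : Matrix (Fin n) (Fin n) S) : X * Y ∈ MI J := by
  intro i j
  rw [Matrix.mul_apply]
  exact Ideal.sum_mem _ fun k _ => J.mul_mem_right _ (hX i k)

theorem sum_single_diag (c : S) :
    ∑ k : Fin n, Matrix.single k k c = c • (1 : Matrix (Fin n) (Fin n) S) := by
  ext p q
  rw [Matrix.sum_apply, Matrix.smul_apply, Matrix.one_apply, smul_eq_mul, mul_ite, mul_one,
    mul_zero]
  by_cases h : p = q
  · subst h
    rw [if_pos rfl, Finset.sum_eq_single p]
    · rw [Matrix.single_apply, if_pos ⟨rfl, rfl⟩]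
    · intro k _ hk
      rw [Matrix.single_apply, if_neg fun h => hk h.1]
    · intro hp
      exact absurd (Finset.mem_univ _) hp
  · rw [if_neg h]
    refine Finset.sum_eq_zero fun k _ => ?_
    rw [Matrix.single_apply, if_neg fun h' => h (h'.1.symm.trans h'.2)]

end MI

theorem trace_unip (ℓ : ℕ) [Fact ℓ.Prime] (F : Type) [Field F] [CharP F ℓ] (n m : ℕ)
    (M : Matrix (Fin n) (Fin n) F) (h : M ^ ℓ ^ m = 1) (hn : (n : F) ≠ 0) :
    Matrix.trace M = n := by
  have hn0 : n ≠ 0 := by
    rintro rfl
    exact hn Nat.cast_zero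
  haveI : Nonempty (Fin n) := ⟨⟨0, Nat.pos_of_ne_zero hn0⟩⟩
  haveI : CharP (Matrix (Fin n) (Fin n) F) ℓ := inferInstance
  have h1 : (M - 1) ^ ℓ ^ m = 0 := by
    rw [sub_pow_char_pow_of_commute _ _ (Commute.one_right M), h, one_pow, sub_self]
  have h2 := (Matrix.isNilpotent_trace_of_isNilpotent ⟨_, h1⟩).eq_zero
  rw [Matrix.trace_sub, Matrix.trace_one, Fintype.card_fin, sub_eq_zero] at h2
  exact h2

theorem suv : SuvStmt := by
  classical
  intro hnil ℓ _ F V B _ _ _ _ _ _ β n π f hV hπ hn hf
  obtain ⟨N, hN⟩ := hnil ℓ F V hV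
  set I : Ideal (MonoidAlgebra F V) := RingHom.ker (au F V) with hI
  have hmemI : ∀ a, a ∈ I ↔ au F V a = 0 := fun a => RingHom.mem_ker
  choose e he using fun (p q : Fin n) => hπ (Matrix.single p q (1 : F))
  have hfe : ∀ p q, f (e p q) - Matrix.single p q (1 : MonoidAlgebra F V) ∈ MI I := by
    intro p q i j
    rw [hmemI, Matrix.sub_apply, map_sub, hf.aug, he, Matrix.single_apply, Matrix.single_apply]
    split_ifs
    · rw [map_one, sub_self]
    · rw [map_zero, sub_self]
  let U : Submodule F (MonoidAlgebra F V) :=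
    { carrier := {a | ∃ b, f b - a • (1 : Matrix (Fin n) (Fin n) (MonoidAlgebra F V)) ∈ MI (I ^ 2)}
      add_mem' := by
        rintro a a' ⟨b, hb⟩ ⟨b', hb'⟩
        refine ⟨b + b', ?_⟩
        have h1 : f (b + b') - (a + a') • (1 : Matrix (Fin n) (Fin n) (MonoidAlgebra F V)) =
            (f b - a • (1 : Matrix (Fin n) (Fin n) (MonoidAlgebra F V))) +
            (f b' - a' • (1 : Matrix (Fin n) (Fin n) (MonoidAlgebra F V))) := by
          rw [map_add, add_smul]
          abel
        rw [h1]
        exact add_mem hb hb'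
      zero_mem' := ⟨0, by
        rw [map_zero, zero_smul, sub_zero]
        exact zero_mem _⟩
      smul_mem' := by
        rintro c a ⟨b, hb⟩
        refine ⟨c • b, ?_⟩
        have h1 : f (c • b) - (c • a) • (1 : Matrix (Fin n) (Fin n) (MonoidAlgebra F V)) =
            c • (f b - a • (1 : Matrix (Fin n) (Fin n) (MonoidAlgebra F V))) := by
          rw [map_smul, smul_sub, smul_assoc]
        rw [h1]
        intro i j
        exact Submodule.smul_of_tower_mem (I ^ 2) c (hb i j) }
  have hUmem : ∀ a, a ∈ U ↔
    ∃ b, f b - a • (1 : Matrix (Fin n) (Fin n) (MonoidAlgebra F V)) ∈ MI (I ^ 2) := fun a => Iff.rfl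
  have hfb : ∀ b, π b = 0 → f b ∈ MI I := by
    intro b hb i j
    rw [hmemI, hf.aug, hb]
    rfl
  have hent : ∀ b, π b = 0 → ∀ i, f b i i ∈ U := by
    intro b hb i
    refine (hUmem _).mpr ⟨∑ k, e k i * b * e i k, ?_⟩
    have h1 : (f b i i) • (1 : Matrix (Fin n) (Fin n) (MonoidAlgebra F V)) =
        ∑ k, Matrix.single k i 1 * f b * Matrix.single i k 1 := by
      rw [← sum_single_diag]
      refine Finset.sum_congr rfl fun k _ => ?_
      rw [Matrix.single_mul_mul_single, one_mul, mul_one]
    rw [map_sum, h1, ← Finset.sum_sub_distrib]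
    refine Submodule.sum_mem _ fun k _ => ?_
    rw [map_mul, map_mul]
    have h2 : f (e k i) * f b * f (e i k) -
        Matrix.single k i (1 : MonoidAlgebra F V) * f b * Matrix.single i k 1 =
        ((f (e k i) - Matrix.single k i 1) * f b) * f (e i k) +
        Matrix.single k i (1 : MonoidAlgebra F V) * (f b * (f (e i k) - Matrix.single i k 1)) := by
      noncomm_ring
    rw [h2]
    rw [pow_two]
    exact add_mem (MI_mul_right (MI_mul (hfe k i) (hfb b hb)) _)
      (MI_mul_left _ (MI_mul (hfb b hb) (hfe i k)))
  have hUtop : U = ⊤ := by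
    by_contra hne
    obtain ⟨θ, hθ0, hθ⟩ := Submodule.exists_le_ker_of_lt_top U (lt_top_iff_ne_top.mpr hne)
    apply hθ0
    let t : B →ₗ[F] F :=
      θ ∘ₗ (Matrix.traceLinearMap (Fin n) F (MonoidAlgebra F V)) ∘ₗ f.toLinearMap
    have ht : ∀ b, t b = θ (Matrix.trace (f b)) := fun b => rfl
    have htc : ∀ b b', t (b * b') = t (b' * b) := by
      intro b b'
      rw [ht, ht, map_mul, map_mul, Matrix.trace_mul_comm]
    have ht0 : ∀ b, π b = 0 → t b = 0 := by
      intro b hb
      rw [ht, Matrix.trace, map_sum]
      exact Finset.sum_eq_zero fun i _ => hθ (hent b hb i)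
    have ht1 : ∀ b b', π b = π b' → t b = t b' := by
      intro b b' h
      rw [← sub_eq_zero, ← map_sub]
      apply ht0
      rw [map_sub, h, sub_self]
    have hθ1 : θ 1 = 0 := hθ ((hUmem _).mpr ⟨1, by
      rw [map_one, one_smul, sub_self]
      exact zero_mem _⟩)
    have ht_one : t 1 = 0 := by
      rw [ht, map_one, Matrix.trace_one, Fintype.card_fin]
      have h1 : ((n : ℕ) : MonoidAlgebra F V) = n • (1 : MonoidAlgebra F V) := by
        rw [nsmul_eq_mul, mul_one]
      rw [h1, map_nsmul, hθ1, smul_zero]
    have hoff : ∀ p q, p ≠ q → t (e p q) = 0 := by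
      intro p q hpq
      have h1 : π (e p q) = π (e p p * e p q - e p q * e p p) := by
        rw [map_sub, map_mul, map_mul, he, he, Matrix.single_mul_single_same,
          Matrix.single_mul_single_of_ne _ _ _ _ (Ne.symm hpq), sub_zero, mul_one]
      rw [ht1 _ _ h1, map_sub, htc, sub_self]
    have hdiag : ∀ p q, t (e p p) = t (e q q) := by
      intro p q
      have h1 : ∀ p q, π (e p p) = π (e p q * e q p) := by
        intro p q
        rw [map_mul, he, he, he, Matrix.single_mul_single_same, mul_one]
      rw [ht1 _ _ (h1 p q), ht1 _ _ (h1 q p), htc]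
    have hsum : ∑ p, t (e p p) = 0 := by
      rw [← map_sum, ← ht_one]
      apply ht1
      rw [map_sum, map_one, Finset.sum_congr rfl fun p _ => he p p, sum_single_diag, one_smul]
    have hd0 : ∀ p, t (e p p) = 0 := by
      intro p
      have h1 : (n : F) * t (e p p) = 0 := by
        rw [← hsum, Finset.sum_congr rfl (fun q _ => hdiag q p), Finset.sum_const,
          Finset.card_univ, Fintype.card_fin, nsmul_eq_mul]
      exact (mul_eq_zero.mp h1).resolve_left hn
    have hte : ∀ p q, t (e p q) = 0 := by
      intro p q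
      by_cases h : p = q
      · rw [h]
        exact hd0 q
      · exact hoff p q h
    have ht2 : ∀ b, t b = 0 := by
      intro b
      have h1 : π b = π (∑ p, ∑ q, π b p q • e p q) := by
        rw [map_sum]
        conv_lhs => rw [Matrix.matrix_eq_sum_single (π b)]
        refine Finset.sum_congr rfl fun p _ => ?_
        rw [map_sum]
        refine Finset.sum_congr rfl fun q _ => ?_
        rw [map_smul, he, Matrix.smul_single, smul_eq_mul, mul_one]
      rw [ht1 _ _ h1, map_sum]
      refine Finset.sum_eq_zero fun p _ => ?_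
      rw [map_sum]
      refine Finset.sum_eq_zero fun q _ => ?_
      rw [map_smul, hte, smul_zero]
    refine MonoidAlgebra.lhom_ext' fun u => LinearMap.ext_ring ?_
    show θ (MonoidAlgebra.single u 1) = 0
    obtain ⟨m, hm⟩ := hV u
    have htr : Matrix.trace (π (β u)) = n := by
      refine trace_unip ℓ F n m _ ?_ hn
      rw [← map_pow, ← map_pow, hm, map_one, map_one]
    have h3 := ht2 (β u)
    rw [ht, Matrix.trace] at h3
    have h4 : ∑ i, (f (β u)).diag i =
        Matrix.trace (π (β u)) • MonoidAlgebra.single u (1 : F) := by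
      rw [Matrix.trace, Finset.sum_smul]
      refine Finset.sum_congr rfl fun i _ => ?_
      rw [Matrix.diag_apply, Matrix.diag_apply, hf.grp, MonoidAlgebra.smul_single, smul_eq_mul,
        mul_one]
    rw [h4, htr, map_smul, smul_eq_mul] at h3
    exact (mul_eq_zero.mp h3).resolve_left hn
  have hP : ∀ k, ∀ X ∈ MI (n := n) (I ^ k), ∃ b, X - f b ∈ MI (I ^ (k + 1)) := by
    intro k
    induction k with
    | zero =>
      intro X _
      obtain ⟨b, hb⟩ := hπ (Matrix.of fun i j => au F V (X i j))
      refine ⟨b, fun i j => ?_⟩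
      rw [zero_add, pow_one, hmemI, Matrix.sub_apply, map_sub, hf.aug, hb]
      exact sub_self _
    | succ k ih =>
      have key : ∀ a ∈ I ^ (k + 1), ∀ i j : Fin n,
          ∃ b, Matrix.single i j a - f b ∈ MI (I ^ (k + 1 + 1)) := by
        intro a ha i j
        rw [pow_succ] at ha
        refine Submodule.mul_induction_on ha ?_ ?_
        · intro x hx y hy
          have hsx : Matrix.single i j x ∈ MI (n := n) (I ^ k) := by
            intro p q
            rw [Matrix.single_apply]
            split_ifs
            · exact hx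
            · exact zero_mem _
          obtain ⟨b, hb⟩ := ih _ hsx
          have hyU : y ∈ U := by
            rw [hUtop]
            exact Submodule.mem_top
          obtain ⟨b', hb'⟩ := (hUmem y).mp hyU
          have hy1 : y • (1 : Matrix (Fin n) (Fin n) (MonoidAlgebra F V)) ∈ MI I := by
            intro p q
            rw [Matrix.smul_apply, smul_eq_mul]
            exact I.mul_mem_right _ hy
          have hfb' : f b ∈ MI (I ^ k) := by
            have h1 : f b = Matrix.single i j x - (Matrix.single i j x - f b) := by abel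
            rw [h1]
            refine sub_mem hsx ?_
            intro p q
            exact Ideal.pow_le_pow_right (Nat.le_succ k) (hb p q)
          refine ⟨b * b', ?_⟩
          have h2 : Matrix.single i j (x * y) =
              Matrix.single i j x * (y • (1 : Matrix (Fin n) (Fin n) (MonoidAlgebra F V))) := by
            rw [Matrix.mul_smul, mul_one, Matrix.smul_single, smul_eq_mul, mul_comm]
          have h3 : Matrix.single i j (x * y) - f (b * b') =
              (Matrix.single i j x - f b) *
                (y • (1 : Matrix (Fin n) (Fin n) (MonoidAlgebra F V))) -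
              f b * (f b' - y • (1 : Matrix (Fin n) (Fin n) (MonoidAlgebra F V))) := by
            rw [h2, map_mul, sub_mul, mul_sub]
            abel
          rw [h3]
          refine sub_mem ?_ ?_
          · have := MI_mul hb hy1
            rw [← pow_succ] at this
            exact this
          · have := MI_mul hfb' hb'
            rw [← pow_add] at this
            exact this
        · rintro x y ⟨b, hb⟩ ⟨b', hb'⟩
          refine ⟨b + b', ?_⟩
          have h1 : Matrix.single i j (x + y) - f (b + b') =
              (Matrix.single i j x - f b) + (Matrix.single i j y - f b') := by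
            rw [map_add, Matrix.single_add]
            abel
          rw [h1]
          exact add_mem hb hb'
      intro X hX
      choose c hc using fun i j => key (X i j) (hX i j) i j
      refine ⟨∑ i, ∑ j, c i j, ?_⟩
      have h1 : X - f (∑ i, ∑ j, c i j) =
          ∑ i, ∑ j, (Matrix.single i j (X i j) - f (c i j)) := by
        conv_lhs => rw [Matrix.matrix_eq_sum_single X]
        rw [map_sum, ← Finset.sum_sub_distrib]
        refine Finset.sum_congr rfl fun i _ => ?_
        rw [map_sum, ← Finset.sum_sub_distrib]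
      rw [h1]
      exact Submodule.sum_mem _ fun i _ => Submodule.sum_mem _ fun j _ => hc i j
  intro X
  have hfin : ∀ k, ∃ b, X - f b ∈ MI (I ^ k) := by
    intro k
    induction k with
    | zero =>
      refine ⟨0, fun i j => ?_⟩
      rw [pow_zero, Ideal.one_eq_top]
      exact Submodule.mem_top
    | succ k ih =>
      obtain ⟨b, hb⟩ := ih
      obtain ⟨b', hb'⟩ := hP k _ hb
      refine ⟨b + b', ?_⟩
      rw [map_add, ← sub_sub]
      exact hb'
  obtain ⟨b, hb⟩ := hfin N
  refine ⟨b, ?_⟩
  have h1 : X - f b = 0 := by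
    ext i j
    have h2 := hb i j
    rw [hN, Ideal.mem_bot] at h2
    rw [h2]
    rfl
  exact (sub_eq_zero.mp h1).symm

end Pool.Agent.PFC.H13
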